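import Pool.Agent.H82.RP.TD

/-!
# DEN: more than `j` primes with positive density
-/

set_option autoImplicit false

open Finset Real
open scoped Nat

namespace Pool.Agent.H50.RP

open Pool.Agent.H82.RP
open Pool.Agent.H30.BV (NX)
open Pool.Agent.H31.MP (ip)

theorem sum_ip (a b : ℕ) : ∑ m ∈ Icc a b, ip m = (((Icc a b).filter Nat.Prime).card : ℝ) := by
  unfold ip
  rw [sum_boole]

theorem pf_DEN (h1 : Pool.Agent.H31.MP.T_MX) : T_DEN := by
  classical
  intro lam j hlam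
  have hκ0 : 0 < min (1 / 8 : ℝ) (lam / 2) := lt_min (by norm_num) (by positivity)
  obtain ⟨C₃, hC, h2⟩ := h1 (2 * j + 1) (min (1 / 8) (lam / 2))
    (by have : (0 : ℝ) ≤ j := Nat.cast_nonneg j
        linarith) hκ0 (min_le_left _ _)
  obtain ⟨Z₀, h3⟩ := h2 1 one_pos
  set κ := min (1 / 8 : ℝ) (lam / 2) with hκ
  have hκ2 : κ ≤ lam / 2 := min_le_right _ _
  refine ⟨1 / (6 * C₃ ^ 2), by positivity, ⌈3 * max Z₀ 16⌉₊ + 2, ?_⟩
  intro n hn
  have hn1 : 3 * max Z₀ 16 ≤ ((n - 1 : ℕ) : ℝ) := by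
    have h4 : ⌈3 * max Z₀ 16⌉₊ ≤ n - 1 := by omega
    exact (Nat.le_ceil _).trans (by exact_mod_cast h4)
  have hn2 : ((n - 1 : ℕ) : ℝ) = (n : ℝ) - 1 := by
    rw [Nat.cast_sub (by omega)]
    simp
  have hn3 : (2 : ℝ) ≤ n := by
    have : 2 ≤ n := by omega
    exact_mod_cast this
  set Z : ℝ := ((n - 1 : ℕ) : ℝ) / 3 with hZ
  have hZ0 : Z₀ ≤ Z := by
    rw [hZ, le_div_iff₀ (by norm_num : (0 : ℝ) < 3)]
    have := le_max_left Z₀ 16
    linarith
  have hZ16 : 16 ≤ Z := by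
    rw [hZ, le_div_iff₀ (by norm_num : (0 : ℝ) < 3)]
    have := le_max_right Z₀ 16
    linarith
  have hZpos : 0 < Z := by linarith
  have hNX : NX Z = n - 1 := by
    unfold NX
    have : 3 * Z = ((n - 1 : ℕ) : ℝ) := by
      rw [hZ]
      ring
    rw [this, Nat.ceil_natCast]
  obtain ⟨w, v, hw, hv, hsw, hvw, hM, hv4, _, _, hB⟩ := h3 Z hZ0
  set B := (Icc 1 (NX Z)).filter (fun m => v m ≠ 0 ∧
    j < ((Icc m (m + ⌊κ * Real.log Z⌋₊)).filter Nat.Prime).card) with hBd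
  have hnotB : ∀ m ∈ (Icc 1 (NX Z)).filter (fun m => ¬ (v m ≠ 0 ∧
      j < ((Icc m (m + ⌊κ * Real.log Z⌋₊)).filter Nat.Prime).card)), v m ≤ 2 * j * w m := by
    intro m hm
    rw [mem_filter] at hm
    have hj0 : (0 : ℝ) ≤ j := Nat.cast_nonneg j
    by_cases h0 : v m = 0
    · rw [h0]
      exact mul_nonneg (mul_nonneg (by norm_num) hj0) (hw m)
    · have h5 : ((Icc m (m + ⌊κ * Real.log Z⌋₊)).filter Nat.Prime).card ≤ j := by
        by_contra h6
        exact hm.2 ⟨h0, not_le.1 h6⟩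
      have h7 := hvw m hm.1
      rw [sum_ip] at h7
      have h8 : (((Icc m (m + ⌊κ * Real.log Z⌋₊)).filter Nat.Prime).card : ℝ) ≤ j := by
        exact_mod_cast h5
      have h9 : 2 * w m * (((Icc m (m + ⌊κ * Real.log Z⌋₊)).filter Nat.Prime).card : ℝ) ≤
          2 * w m * j := mul_le_mul_of_nonneg_left h8 (mul_nonneg (by norm_num) (hw m))
      linarith
  have hsum := sum_filter_add_sum_filter_not (Icc 1 (NX Z)) (fun m => v m ≠ 0 ∧
    j < ((Icc m (m + ⌊κ * Real.log Z⌋₊)).filter Nat.Prime).card) v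
  have hnB : ∑ m ∈ (Icc 1 (NX Z)).filter (fun m => ¬ (v m ≠ 0 ∧
      j < ((Icc m (m + ⌊κ * Real.log Z⌋₊)).filter Nat.Prime).card)), v m ≤ 2 * j := by
    refine (sum_le_sum hnotB).trans ?_
    rw [← mul_sum]
    have h4 : ∑ m ∈ (Icc 1 (NX Z)).filter (fun m => ¬ (v m ≠ 0 ∧
        j < ((Icc m (m + ⌊κ * Real.log Z⌋₊)).filter Nat.Prime).card)), w m ≤ 1 :=
      (sum_le_sum_of_subset_of_nonneg (filter_subset _ _) fun m _ _ => hw m).trans hsw
    have hj0 : (0 : ℝ) ≤ 2 * j := by positivity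
    calc 2 * (j : ℝ) * _ ≤ 2 * j * 1 := mul_le_mul_of_nonneg_left h4 hj0
      _ = 2 * j := mul_one _
  have hvB : 1 ≤ ∑ m ∈ B, v m := by
    rw [hBd]
    linarith
  have hB1 := hvB.trans (hB B (filter_subset _ _))
  have hcard : Z / C₃ ^ 2 ≤ (B.card : ℝ) := by
    have h4 : 1 / C₃ ≤ √((B.card : ℝ) / Z) := by
      rw [div_le_iff₀ hC]
      linarith
    have h5 : (1 / C₃) ^ 2 ≤ (B.card : ℝ) / Z := by
      have h6 := pow_le_pow_left₀ (by positivity) h4 2
      rwa [Real.sq_sqrt (by positivity)] at h6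
    rw [le_div_iff₀ hZpos] at h5
    have h7 : Z / C₃ ^ 2 = (1 / C₃) ^ 2 * Z := by
      field_simp
    rw [h7]
    exact h5
  have hsub : B ⊆ (Icc 1 n).filter (fun k : ℕ => j < XL lam k) := by
    intro m hm
    rw [hBd, mem_filter, mem_Icc, hNX] at hm
    obtain ⟨⟨hm1, hm2⟩, hvm, hjm⟩ := hm
    rw [mem_filter, mem_Icc]
    refine ⟨⟨hm1, by omega⟩, lt_of_lt_of_le hjm ?_⟩
    unfold XL
    refine card_le_card (filter_subset_filter _ (Icc_subset_Icc le_rfl ?_))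
    have h4 := hv4 m hvm
    have hlogm : Real.log Z - Real.log 4 ≤ Real.log m := by
      rw [← Real.log_div hZpos.ne' (by norm_num)]
      exact Real.log_le_log (by positivity) h4
    have hlogZ : 2 * Real.log 4 ≤ Real.log Z := by
      have h5 : 2 * Real.log 4 = Real.log 16 := by
        rw [show (16 : ℝ) = 4 ^ 2 by norm_num, Real.log_pow]
        norm_num
      rw [h5]
      exact Real.log_le_log (by norm_num) hZ16
    have h5 : κ * Real.log Z ≤ lam * Real.log m := by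
      have hlZ0 : 0 ≤ Real.log Z := Real.log_nonneg (by linarith)
      calc κ * Real.log Z ≤ lam / 2 * Real.log Z := mul_le_mul_of_nonneg_right hκ2 hlZ0
        _ = lam * (Real.log Z / 2) := by ring
        _ ≤ lam * Real.log m := mul_le_mul_of_nonneg_left (by linarith) hlam.le
    have h6 : ⌊κ * Real.log Z⌋₊ ≤ ⌊lam * Real.log (m : ℝ)⌋₊ := Nat.floor_le_floor h5
    omega
  have hfin : (B.card : ℝ) ≤ (((Icc 1 n).filter (fun k : ℕ => j < XL lam k)).card : ℕ) := by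
    exact_mod_cast card_le_card hsub
  refine le_trans ?_ (hcard.trans hfin)
  rw [hZ, hn2, div_div, div_mul_eq_mul_div, one_mul, div_le_div_iff₀ (by positivity)
    (by positivity)]
  have hC2 : 0 < C₃ ^ 2 := by positivity
  nlinarith [mul_nonneg hC2.le (by linarith : (0 : ℝ) ≤ (n : ℝ) - 2)]

end Pool.Agent.H50.RP
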