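import Pool.Agent.H82.RP.TC

/-!
# NUM: the choice of the number of particles
-/

set_option autoImplicit false

open Finset Real
open scoped Nat

namespace Pool.Agent.H50.RP

open Pool.Agent.H82.RP

theorem num_shift (L σ ℓ lY : ℝ) (K : ℕ) :
    ∑ s ∈ range (K + 1), L ^ s / (s ! : ℝ) * (4 / 3 * (s * σ ^ (s - 1) * ℓ / lY)) =
      4 / 3 * (L * ℓ / lY) * ∑ s ∈ range K, (L * σ) ^ s / (s ! : ℝ) := by
  rw [sum_range_succ', mul_sum]
  simp only [Nat.cast_zero, zero_mul, zero_div, mul_zero, add_zero, Nat.add_sub_cancel]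
  refine sum_congr rfl fun s _ => ?_
  have h1 : (s ! : ℝ) ≠ 0 := by exact_mod_cast Nat.factorial_ne_zero s
  have h2 : ((s : ℝ) + 1) ≠ 0 := by positivity
  rw [Nat.factorial_succ]
  push_cast
  rw [mul_pow, pow_succ]
  field_simp

theorem pf_NUM : T_NUM := by
  intro ε hε
  refine ⟨min (1 / 4) (ε / 16), lt_min (by norm_num) (by positivity), ?_⟩
  intro N₀ hN
  have hlim := FloorSemiring.tendsto_pow_div_factorial_atTop N₀
  have hev : ∀ᶠ K : ℕ in Filter.atTop, N₀ ^ K / (K ! : ℝ) < ε / 8 :=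
    hlim.eventually (gt_mem_nhds (by positivity))
  obtain ⟨K, hK, hK1⟩ := (hev.and (Filter.eventually_ge_atTop 1)).exists
  refine ⟨K, hK1, ?_⟩
  intro η L σ ℓ lY q hη hηK hL hσ hℓ hlY hLσ hLℓ hq
  set ε₁ := min (1 / 4) (ε / 16) with hε₁
  have he1 : ε₁ ≤ 1 / 4 := min_le_left _ _
  have he2 : ε₁ ≤ ε / 16 := min_le_right _ _
  have he0 : 0 ≤ ε₁ := le_min (by norm_num) (by positivity)
  set E := ∑ s ∈ range (K + 1), (L * σ) ^ s / (s ! : ℝ) with hE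
  set S1 := ∑ s ∈ range (K + 1), L ^ s / (s ! : ℝ) * (4 / 3 * (s * σ ^ (s - 1) * ℓ / lY))
    with hS1
  have hfac : ∀ s : ℕ, (0 : ℝ) < (s ! : ℝ) := fun s => by exact_mod_cast Nat.factorial_pos s
  have hLσ0 : 0 ≤ L * σ := mul_nonneg hL hσ
  have hE1 : 1 ≤ E := by
    rw [hE, sum_range_succ']
    have h1 : 0 ≤ ∑ s ∈ range K, (L * σ) ^ (s + 1) / ((s + 1)! : ℝ) :=
      sum_nonneg fun s _ => div_nonneg (pow_nonneg hLσ0 _) (hfac _).le
    simp only [pow_zero, Nat.factorial_zero, Nat.cast_one, div_one]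
    linarith
  have hEK : ∑ s ∈ range K, (L * σ) ^ s / (s ! : ℝ) ≤ E := by
    rw [hE, sum_range_succ]
    have h1 : 0 ≤ (L * σ) ^ K / (K ! : ℝ) := div_nonneg (pow_nonneg hLσ0 _) (hfac _).le
    linarith
  have hS1le : S1 ≤ 4 / 3 * ε₁ * E := by
    rw [hS1, num_shift]
    have h1 : L * ℓ / lY ≤ ε₁ := by
      rw [div_le_iff₀ hlY]
      exact hLℓ
    have h0 : 0 ≤ L * ℓ / lY := div_nonneg (mul_nonneg hL hℓ) hlY.le
    have h2 : 0 ≤ ∑ s ∈ range K, (L * σ) ^ s / (s ! : ℝ) :=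
      sum_nonneg fun s _ => div_nonneg (pow_nonneg hLσ0 _) (hfac _).le
    calc 4 / 3 * (L * ℓ / lY) * ∑ s ∈ range K, (L * σ) ^ s / (s ! : ℝ)
        ≤ 4 / 3 * ε₁ * ∑ s ∈ range K, (L * σ) ^ s / (s ! : ℝ) := by
          refine mul_le_mul_of_nonneg_right ?_ h2
          linarith
      _ ≤ 4 / 3 * ε₁ * E := mul_le_mul_of_nonneg_left hEK (by positivity)
  have hτ0 : ∀ s : ℕ, 0 ≤ 4 / 3 * (s * σ ^ (s - 1) * ℓ / lY) := by
    intro s
    have := pow_nonneg hσ (s - 1)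
    positivity
  have hT0 : E - S1 ≤ ∑ s ∈ range (K + 1), L ^ s / (s ! : ℝ) * q s := by
    rw [hE, hS1, ← sum_sub_distrib]
    refine sum_le_sum fun s _ => ?_
    have h1 : 0 ≤ L ^ s / (s ! : ℝ) := div_nonneg (pow_nonneg hL _) (hfac _).le
    have h2 := mul_le_mul_of_nonneg_left (hq s) h1
    have h3 : (L * σ) ^ s / (s ! : ℝ) = L ^ s / (s ! : ℝ) * σ ^ s := by
      rw [mul_pow]
      ring
    rw [h3]
    linarith
  set T0 := ∑ s ∈ range (K + 1), L ^ s / (s ! : ℝ) * q s with hT0d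
  have hE0 : 0 ≤ E := by linarith
  have h23 : 2 / 3 * E ≤ T0 := by
    have h1 : ε₁ * E ≤ 1 / 4 * E := mul_le_mul_of_nonneg_right he1 hE0
    linarith
  refine ⟨by linarith, ?_⟩
  have hsplit : ∑ s ∈ range (K + 1), ((1 + η) * L) ^ s / (s ! : ℝ) *
      (if s < K then 4 / 3 * (s * σ ^ (s - 1) * ℓ / lY) else σ ^ s) =
      ∑ s ∈ range K, ((1 + η) * L) ^ s / (s ! : ℝ) * (4 / 3 * (s * σ ^ (s - 1) * ℓ / lY)) +
        ((1 + η) * L) ^ K / (K ! : ℝ) * σ ^ K := by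
    rw [sum_range_succ, if_neg (lt_irrefl K)]
    congr 1
    refine sum_congr rfl fun s hs => ?_
    rw [if_pos (mem_range.1 hs)]
  rw [hsplit]
  have hb1 : ∑ s ∈ range K, ((1 + η) * L) ^ s / (s ! : ℝ) *
      (4 / 3 * (s * σ ^ (s - 1) * ℓ / lY)) ≤ 2 * S1 := by
    have h1 : ∑ s ∈ range K, ((1 + η) * L) ^ s / (s ! : ℝ) *
        (4 / 3 * (s * σ ^ (s - 1) * ℓ / lY)) ≤
        ∑ s ∈ range K, 2 * (L ^ s / (s ! : ℝ) * (4 / 3 * (s * σ ^ (s - 1) * ℓ / lY))) := by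
      refine sum_le_sum fun s hs => ?_
      have h2 : (1 + η) ^ s ≤ 2 :=
        (pow_le_pow_right₀ (by linarith) (mem_range.1 hs).le).trans hηK
      have h3 : 0 ≤ L ^ s / (s ! : ℝ) * (4 / 3 * (s * σ ^ (s - 1) * ℓ / lY)) :=
        mul_nonneg (div_nonneg (pow_nonneg hL _) (hfac _).le) (hτ0 s)
      have h4 : ((1 + η) * L) ^ s / (s ! : ℝ) * (4 / 3 * (s * σ ^ (s - 1) * ℓ / lY)) =
          (1 + η) ^ s * (L ^ s / (s ! : ℝ) * (4 / 3 * (s * σ ^ (s - 1) * ℓ / lY))) := by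
        rw [mul_pow]
        ring
      rw [h4]
      exact mul_le_mul_of_nonneg_right h2 h3
    refine h1.trans ?_
    rw [← mul_sum, hS1, sum_range_succ]
    have h5 : 0 ≤ L ^ K / (K ! : ℝ) * (4 / 3 * (K * σ ^ (K - 1) * ℓ / lY)) :=
      mul_nonneg (div_nonneg (pow_nonneg hL _) (hfac _).le) (hτ0 K)
    linarith
  have hb2 : ((1 + η) * L) ^ K / (K ! : ℝ) * σ ^ K ≤ ε / 4 := by
    have h1 : ((1 + η) * L) ^ K / (K ! : ℝ) * σ ^ K =
        (1 + η) ^ K * ((L * σ) ^ K / (K ! : ℝ)) := by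
      rw [mul_pow, mul_pow]
      ring
    rw [h1]
    have h2 : (L * σ) ^ K / (K ! : ℝ) ≤ N₀ ^ K / (K ! : ℝ) :=
      div_le_div_of_nonneg_right (pow_le_pow_left₀ hLσ0 hLσ K) (hfac K).le
    have h3 : 0 ≤ (L * σ) ^ K / (K ! : ℝ) := div_nonneg (pow_nonneg hLσ0 _) (hfac _).le
    calc (1 + η) ^ K * ((L * σ) ^ K / (K ! : ℝ)) ≤ 2 * ((L * σ) ^ K / (K ! : ℝ)) :=
          mul_le_mul_of_nonneg_right hηK h3
      _ ≤ 2 * (ε / 8) := by linarith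
      _ = ε / 4 := by ring
  have h6 : ε₁ * E ≤ ε / 16 * E := mul_le_mul_of_nonneg_right he2 hE0
  have h7 : ε * (2 / 3 * E) ≤ ε * T0 := mul_le_mul_of_nonneg_left h23 hε.le
  have h8 : ε * 1 ≤ ε * E := mul_le_mul_of_nonneg_left hE1 hε.le
  linarith

end Pool.Agent.H50.RP
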