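import Pool.Agent.H82.RP.TB

/-!
# QYI: the bilinear form in the diagonal variables
-/

set_option autoImplicit false

open Finset Real ArithmeticFunction
open scoped Nat ArithmeticFunction.Moebius

namespace Pool.Agent.H50.RP

open Pool.Agent.H82.RP
open Pool.Agent.H31.MP (RS Rgh)

theorem mem_RS' {z Y : ℝ} {a : ℕ} : a ∈ RS z Y ↔ (1 ≤ a ∧ a ≤ ⌊Y⌋₊) ∧ Rgh z a := by
  classical
  unfold RS
  rw [mem_filter, mem_Icc]

section

variable {I : Type} [Fintype I] [DecidableEq I]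

theorem mem_BG {z Y : ℝ} {d : I → ℕ} : d ∈ BG I z Y ↔ ∀ i, d i ∈ RS z Y := by
  unfold BG
  rw [Fintype.mem_piFinset]

theorem moeb_sq {z Y : ℝ} {r : I → ℕ} (hr : r ∈ BG I z Y) :
    (∏ i, ((μ (r i) : ℤ) : ℝ)) * (∏ i, ((μ (r i) : ℤ) : ℝ)) = 1 := by
  rw [← prod_mul_distrib]
  refine prod_eq_one fun i _ => ?_
  have h1 : Squarefree (r i) := (mem_RS'.1 (mem_BG.1 hr i)).2.1
  have h2 := ArithmeticFunction.moebius_sq_eq_one_of_squarefree h1
  rw [← sq]
  exact_mod_cast h2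

theorem tot_pos {z Y : ℝ} {r : I → ℕ} (hr : r ∈ BG I z Y) :
    0 < ∏ i, ((r i).totient : ℝ) := by
  refine prod_pos fun i _ => ?_
  have h1 := (mem_RS'.1 (mem_BG.1 hr i)).1.1
  exact_mod_cast Nat.totient_pos.2 h1

end

theorem pf_QYI (h1 : T_DGI) (h2 : T_IVI) : T_QYI := by
  classical
  intro I _ _ z Y y y'
  constructor
  · rw [h1 I z Y (lG z Y y) (lG z Y y')]
    refine sum_congr rfl fun r hr => ?_
    rw [(h2 I z Y y r hr).1, (h2 I z Y y' r hr).1]
    have h0 := (tot_pos hr).ne'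
    have h3 := moeb_sq hr
    set M := ∏ i, ((μ (r i) : ℤ) : ℝ)
    set F := ∏ i, ((r i).totient : ℝ)
    have h4 : F * (M * (y r / F) * (M * (y' r / F))) = (M * M) * (y r * y' r / F) := by
      field_simp
    rw [h4, h3, one_mul]
  · intro j w w' hy hy'
    rw [h1 I z Y _ _, sum_filter]
    refine sum_congr rfl fun r hr => ?_
    have hsp : ∀ v u : (I → ℕ) → ℝ, (∑ d ∈ BG I z Y, if ∀ i, r i ∣ d i then
        (lG z Y v d + rs j (lG z Y u) d) / ∏ i, (d i : ℝ) else 0) =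
        (∑ d ∈ BG I z Y, if ∀ i, r i ∣ d i then lG z Y v d / ∏ i, (d i : ℝ) else 0) +
        ∑ d ∈ BG I z Y, if ∀ i, r i ∣ d i then rs j (lG z Y u) d / ∏ i, (d i : ℝ) else 0 := by
      intro v u
      rw [← sum_add_distrib]
      refine sum_congr rfl fun d _ => ?_
      by_cases hd : ∀ i, r i ∣ d i
      · rw [if_pos hd, if_pos hd, if_pos hd, add_div]
      · rw [if_neg hd, if_neg hd, if_neg hd, add_zero]
    rw [hsp y w, hsp y' w', (h2 I z Y y r hr).1, (h2 I z Y y' r hr).1, (h2 I z Y w r hr).2 j,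
      (h2 I z Y w' r hr).2 j]
    have h0 := (tot_pos hr).ne'
    have h3 := moeb_sq hr
    by_cases hrj : r j = 1
    · rw [if_pos hrj, if_pos hrj, if_pos hrj]
      set M := ∏ i, ((μ (r i) : ℤ) : ℝ)
      set F := ∏ i, ((r i).totient : ℝ)
      set a := ∑ a ∈ RS z Y, w (Function.update r j a) / (a.totient : ℝ)
      set b := ∑ a ∈ RS z Y, w' (Function.update r j a) / (a.totient : ℝ)
      have h4 : F * ((M * (y r / F) + M * (a / F)) * (M * (y' r / F) + M * (b / F))) =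
          (M * M) * ((y r + a) * (y' r + b) / F) := by
        field_simp
      rw [h4, h3, one_mul]
    · rw [if_neg hrj, if_neg hrj, if_neg hrj, hy r hrj, hy' r hrj]
      simp

end Pool.Agent.H50.RP
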